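import Pool.Agent.Work.MP_64e010_lc.Br.Main

/-!
# Minimal words of cabled braids

Let `κ 0, ..., κ (m - 1) ≥ 1` be the widths of `m` cables, `n = κ 0 + ... + κ (m - 1)`, let `w` be a
braid word on `m` strands and let `g j` be a braid word on `κ j` strands. The word
`inn κ g m ++ cab κ w` is the braid word on `n` strands in which the strand `j` of `w` is replaced by
`κ j` parallel strands, which carry the braid `g j`. We compute the length of this braid in the Artin
generators: it is the least weighted number of crossings of the outer braid (a crossing of strands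
with the weights `p`, `q` counts `p * q`) plus the sum of the lengths of the inner braids. In
particular the cabled word is minimal if and only if `w` has the least weighted number of crossings
and all words `g j` are minimal.

The proof: deletion of strands is well defined on braids. In a word `W` for the cabled braid, a
crossing of strands of different cables survives in the fraction `1 / (κ i * κ j)` of the words in
which one strand of each cable is kept, hence one of these words, which represents the outer braid,
has a weighted number of crossings not larger than the number of the crossings of strands of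
different cables in `W`. The crossings inside of the cable `j` are at least the length of `g j`.
-/

set_option autoImplicit false

namespace Pool.Agent.Results.MP_64e010_lc.CabledWords

open Pool.Agent.Work.MP_64e010_lc

/-- the length of a braid on `n` strands in the Artin generators -/
noncomputable def geo (n : ℕ) (b : B n) : ℕ :=
  sInf {l | ∃ w, IsWord n w ∧ val n w = b ∧ w.length = l}

/-- the least weighted number of crossings of the words of a braid on `m` strands -/
noncomputable def wgeo (m : ℕ) (κ : ℕ → ℕ) (b : B m) : ℕ :=
  sInf {l | ∃ w, IsWord m w ∧ val m w = b ∧ wcost κ w = l}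

private theorem geo_le {n : ℕ} {b : B n} {w : Word} (hw : IsWord n w) (h : val n w = b) :
    geo n b ≤ w.length :=
  Nat.sInf_le ⟨w, hw, h, rfl⟩

private theorem wgeo_le {m : ℕ} {κ : ℕ → ℕ} {b : B m} {w : Word} (hw : IsWord m w)
    (h : val m w = b) : wgeo m κ b ≤ wcost κ w :=
  Nat.sInf_le ⟨w, hw, h, rfl⟩

private theorem exists_geo {n : ℕ} {w : Word} (hw : IsWord n w) :
    ∃ u, IsWord n u ∧ val n u = val n w ∧ u.length = geo n (val n w) :=
  Nat.sInf_mem (s := {l | ∃ u, IsWord n u ∧ val n u = val n w ∧ u.length = l})
    ⟨w.length, w, hw, rfl, rfl⟩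

private theorem exists_wgeo {m : ℕ} (κ : ℕ → ℕ) {w : Word} (hw : IsWord m w) :
    ∃ u, IsWord m u ∧ val m u = val m w ∧ wcost κ u = wgeo m κ (val m w) :=
  Nat.sInf_mem (s := {l | ∃ u, IsWord m u ∧ val m u = val m w ∧ wcost κ u = l})
    ⟨wcost κ w, w, hw, rfl, rfl⟩

/-- The length of a cabled braid in the Artin generators is the least weighted number of crossings of
the outer braid plus the sum of the lengths of the inner braids; a cabled word is minimal if and only
if the outer word has the least weighted number of crossings and the inner words are minimal. -/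
theorem result {m : ℕ} {κ : ℕ → ℕ} (hκ : ∀ j < m, 1 ≤ κ j) {w : Word} (hw : IsWord m w)
    {g : ℕ → Word} (hg : ∀ j < m, IsWord (κ j) (g j)) :
    geo (off κ m) (val (off κ m) (inn κ g m ++ cab κ w)) =
      wgeo m κ (val m w) + ∑ j ∈ Finset.range m, geo (κ j) (val (κ j) (g j)) ∧
    (Minimal (off κ m) (inn κ g m ++ cab κ w) ↔
      WMinimal m κ w ∧ ∀ j < m, Minimal (κ j) (g j)) := by
  refine ⟨le_antisymm ?_ ?_, minimal_iff hκ hw hg⟩
  · obtain ⟨u, hu, hvu, hlu⟩ := exists_wgeo κ hw
    have hex : ∀ j, ∃ v : Word, j < m → IsWord (κ j) v ∧ val (κ j) v = val (κ j) (g j) ∧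
        v.length = geo (κ j) (val (κ j) (g j)) := by
      intro j
      by_cases hj : j < m
      · obtain ⟨v, hv⟩ := exists_geo (hg j hj)
        exact ⟨v, fun _ => hv⟩
      · exact ⟨[], fun h => absurd h hj⟩
    choose g' hg' using hex
    have hI : IsWord (off κ m) (inn κ g' m ++ cab κ u) :=
      isWord_append.2 ⟨inn_isWord fun j hj => (hg' j hj).1, cab_isWord κ hu⟩
    have hV : val (off κ m) (inn κ g' m ++ cab κ u) =
        val (off κ m) (inn κ g m ++ cab κ w) := by
      rw [val_append, val_append, cab_hom m κ hu hw hvu,
        inn_hom (fun j hj => (hg' j hj).1) hg fun j hj => (hg' j hj).2.1]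
    refine (geo_le hI hV).trans (le_of_eq ?_)
    rw [List.length_append, inn_length, cab_length, hlu, add_comm]
    congr 1
    exact Finset.sum_congr rfl fun j hj => (hg' j (Finset.mem_range.1 hj)).2.2
  · have hW0 : IsWord (off κ m) (inn κ g m ++ cab κ w) :=
      isWord_append.2 ⟨inn_isWord hg, cab_isWord κ hw⟩
    obtain ⟨W, hW, hvW, hlW⟩ := exists_geo hW0
    obtain ⟨w', g', hw', hvw', hg', -, -, hL, hle⟩ := cabled hκ hw hg hW hvW
    rw [← hlW]
    refine le_trans ?_ hle
    rw [hL]
    refine add_le_add (wgeo_le hw' hvw') (Finset.sum_le_sum fun j hj => ?_)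
    have hj' := hg' j (Finset.mem_range.1 hj)
    exact geo_le hj'.1 hj'.2

end Pool.Agent.Results.MP_64e010_lc.CabledWords
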