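import Pool.Agent.Work.MP_64e010_lc.Br.Cover

/-!
# Certificates of minimality by deletion of strands

Let `w` be a braid word on `n` strands. For a set `S` of strands let `del S w` be the braid word on
`S.card` strands which remains if all strands outside of `S` are deleted. Let `F` be a finite family
of sets of strands with weights `y S` such that the total weight of the sets of the family which
contain two given strands is at most `l`, and is equal to `l` if the two strands cross in `w`. If all
words `del S w` (`S` in the family, `y S ≠ 0`) are minimal, then `w` is minimal.

For example, the family of all sets of `k` strands (with the weights `1` and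
`l = (n - 2).choose (k - 2)`) shows that a word is minimal if all its words on `k` strands are
minimal, so a word which is not minimal contains for every `k` a word on `k` strands which is not
minimal; for `k = 2` the words are minimal if any two strands cross always with the same sign.
-/

set_option autoImplicit false

namespace Pool.Agent.Results.MP_64e010_lc.DeletionCertificate

open Pool.Agent.Work.MP_64e010_lc

/-- A braid word is minimal if the pairs of its crossing strands can be covered exactly `l` times
(and all pairs at most `l` times) by sets of strands on which the word is minimal. -/
theorem result {n l : ℕ} (hl : 0 < l) (w : Word) (hw : IsWord n w) (F : Finset (Finset ℕ))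
    (y : Finset ℕ → ℕ) (hmin : ∀ S ∈ F, y S ≠ 0 → Minimal S.card (del S w))
    (hle : ∀ x < n, ∀ z < n, x ≠ z → ∑ S ∈ F.filter (fun S => x ∈ S ∧ z ∈ S), y S ≤ l)
    (heq : ∀ x < n, ∀ z < n, x ≠ z → del {x, z} w ≠ [] →
      ∑ S ∈ F.filter (fun S => x ∈ S ∧ z ∈ S), y S = l) : Minimal n w :=
  cover_min hl w hw F y hmin hle heq

end Pool.Agent.Results.MP_64e010_lc.DeletionCertificate
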